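import Pool.Agent.J4H96.TC.Stm

/-!
# Project TC (helper96), MP_a56640_lc: (COL) `Δ₀` colourings from the linking relations
-/

set_option autoImplicit false

namespace Pool.Agent.J4H63.TC

open Pool.Agent.J4H63.GZ Pool.Agent.J4H96.TC

/-- `b` is the neighbour number `i` of `a` -/
def sl (G : ℕ → ℕ → Prop) (a b i : ℕ) : Prop :=
  G a b ∧ ((i = 0 ∧ ∀ c < b, ¬ G a c) ∨ (i = 1 ∧ ∃ c < b, G a c))

/-- the half-edges of the double cover -/
def Tr (G : ℕ → ℕ → Prop) (x x' : ℕ) : Prop :=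
  ∃ a ≤ x, ∃ e < 2, ∃ i < 2, ∃ b ≤ x', ∃ j < 2,
    x = 4 * a + 2 * e + i ∧ x' + 2 * e = 4 * b + 2 + j ∧ sl G a b i ∧ sl G b a j

open Classical in
/-- the involution of the half-edges -/
noncomputable def ta (G : ℕ → ℕ → Prop) (x : ℕ) : ℕ := if h : ∃ x', Tr G x x' then h.choose else x

section

variable {G : ℕ → ℕ → Prop}

theorem sl_exists {a b : ℕ} (h : G a b) : ∃ i < 2, sl G a b i := by
  by_cases h0 : ∃ c < b, G a c
  · exact ⟨1, by omega, h, Or.inr ⟨rfl, h0⟩⟩
  · push Not at h0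
    exact ⟨0, by omega, h, Or.inl ⟨rfl, h0⟩⟩

theorem sl_unique (hd : ∀ a b c d, G a b → G a c → G a d → b = c ∨ b = d ∨ c = d) {a b b' i : ℕ}
    (h : sl G a b i) (h' : sl G a b' i) : b = b' := by
  obtain ⟨h1, h2⟩ := h
  obtain ⟨h1', h2'⟩ := h'
  rcases h2 with ⟨hi, h2⟩ | ⟨hi, c, hc, h2⟩
  · rcases h2' with ⟨-, h2'⟩ | ⟨hi', -⟩
    · rcases lt_trichotomy b b' with h | h | h
      · exact absurd h1 (h2' b h)
      · exact h
      · exact absurd h1' (h2 b' h)
    · omega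
  · rcases h2' with ⟨hi', -⟩ | ⟨-, c', hc', h2'⟩
    · omega
    · by_contra hne
      rcases hd a c b b' h2 h1 h1' with h | h | h
      · omega
      · subst h
        rcases hd a c' c b h2' h1' h1 with h | h | h <;> omega
      · exact hne h

theorem sl_index {a b i j : ℕ} (h : sl G a b i) (h' : sl G a b j) : i = j := by
  rcases h.2 with ⟨h1, h2⟩ | ⟨h1, c, hc, h2⟩ <;> rcases h'.2 with ⟨h3, h4⟩ | ⟨h3, d, hd, h4⟩
  · omega
  · exact absurd h4 (h2 d hd)
  · exact absurd h2 (h4 c hc)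
  · omega

theorem Tr.symm {x x' : ℕ} (h : Tr G x x') : Tr G x' x := by
  obtain ⟨a, ha, e, he, i, hi, b, hb, j, hj, h1, h2, h3, h4⟩ := h
  exact ⟨b, hb, 1 - e, by omega, j, hj, a, ha, i, hi, by omega, by omega, h4, h3⟩

theorem Tr.unique (hd : ∀ a b c d, G a b → G a c → G a d → b = c ∨ b = d ∨ c = d) {x x' x'' : ℕ}
    (h : Tr G x x') (h' : Tr G x x'') : x' = x'' := by
  obtain ⟨a, ha, e, he, i, hi, b, hb, j, hj, h1, h2, h3, h4⟩ := h
  obtain ⟨a', ha', e', he', i', hi', b', hb', j', hj', h1', h2', h3', h4'⟩ := h'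
  obtain rfl : a = a' := by omega
  obtain rfl : e = e' := by omega
  obtain rfl : i = i' := by omega
  obtain rfl := sl_unique hd h3 h3'
  obtain rfl := sl_index h4 h4'
  omega

theorem ta_eq (hd : ∀ a b c d, G a b → G a c → G a d → b = c ∨ b = d ∨ c = d) {x x' : ℕ}
    (h : Tr G x x') : ta G x = x' := by
  have h0 : ∃ x', Tr G x x' := ⟨x', h⟩
  unfold ta
  rw [dif_pos h0]
  exact h0.choose_spec.unique hd h

theorem ta_ne {x : ℕ} (h : ¬ ∃ x', Tr G x x') : ta G x = x := by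
  unfold ta
  rw [dif_neg h]

theorem ta_ta (hd : ∀ a b c d, G a b → G a c → G a d → b = c ∨ b = d ∨ c = d) (x : ℕ) :
    ta G (ta G x) = x := by
  by_cases h : ∃ x', Tr G x x'
  · obtain ⟨x', h⟩ := h
    rw [ta_eq hd h, ta_eq hd h.symm]
  · rw [ta_ne h, ta_ne h]

theorem Tr.lt {M : ℕ} (hl : ∀ a b, G a b → a < M) {x x' : ℕ} (h : Tr G x x') : x < 4 * M := by
  obtain ⟨a, ha, e, he, i, hi, b, hb, j, hj, h1, h2, h3, h4⟩ := h
  have := hl _ _ h3.1
  omega

theorem ta_graph (hd : ∀ a b c d, G a b → G a c → G a d → b = c ∨ b = d ∨ c = d) {M : ℕ}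
    (hl : ∀ a b, G a b → a < M) (x x' : ℕ) :
    ta G x = x' ↔ Tr G x x' ∨ (x' = x ∧ ∀ x'' < 4 * M, ¬ Tr G x x'') := by
  constructor
  · intro h
    by_cases h0 : ∃ x', Tr G x x'
    · obtain ⟨y, hy⟩ := h0
      rw [ta_eq hd hy] at h
      exact Or.inl (h ▸ hy)
    · rw [ta_ne h0] at h
      exact Or.inr ⟨h.symm, fun x'' _ hx => h0 ⟨_, hx⟩⟩
  · rintro (h | ⟨h1, h2⟩)
    · exact ta_eq hd h
    · rw [h1]
      refine ta_ne ?_
      rintro ⟨y, hy⟩
      exact h2 y (hy.symm.lt hl) hy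

/-- the two copies of the ends of an edge are linked crosswise -/
theorem link_edge (hs : ∀ a b, G a b → G b a)
    (hd : ∀ a b c d, G a b → G a c → G a d → b = c ∨ b = d ∨ c = d) {a b e : ℕ} (he : e < 2)
    (h : G a b) : Linked (ta G) (4 * a + 2 * e) (4 * b + 2 * (1 - e)) := by
  obtain ⟨i, hi, h1⟩ := sl_exists h
  obtain ⟨j, hj, h2⟩ := sl_exists (hs _ _ h)
  have hT : Tr G (4 * a + 2 * e + i) (4 * b + 2 * (1 - e) + j) :=
    ⟨a, by omega, e, he, i, hi, b, by omega, j, hj, rfl, by omega, h1, h2⟩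
  have s1 : Linked (ta G) (4 * a + 2 * e) (4 * a + 2 * e + i) :=
    Relation.ReflTransGen.single (Or.inr (by omega))
  have s2 : Linked (ta G) (4 * a + 2 * e + i) (4 * b + 2 * (1 - e) + j) :=
    Relation.ReflTransGen.single (Or.inl (ta_eq hd hT).symm)
  have s3 : Linked (ta G) (4 * b + 2 * (1 - e) + j) (4 * b + 2 * (1 - e)) :=
    Relation.ReflTransGen.single (Or.inr (by omega))
  exact (s1.trans s2).trans s3

/-- the colour together with the sheet is invariant -/
theorem link_colour (hd : ∀ a b c d, G a b → G a c → G a d → b = c ∨ b = d ∨ c = d)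
    {C : ℕ → Prop} (hC : Proper G C) {x y : ℕ} (h : Linked (ta G) x y) :
    (C (x / 4) ↔ x % 4 < 2) ↔ (C (y / 4) ↔ y % 4 < 2) := by
  induction h with
  | refl => exact Iff.rfl
  | @tail y z _ hyz ih =>
    refine ih.trans ?_
    rcases hyz with rfl | h
    · by_cases h0 : ∃ x', Tr G y x'
      · obtain ⟨x', hx'⟩ := h0
        rw [ta_eq hd hx']
        obtain ⟨a, ha, e, he, i, hi, b, hb, j, hj, h1, h2, h3, h4⟩ := hx'
        have e1 : y / 4 = a := by omega
        have e2 : x' / 4 = b := by omega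
        have e3 : y % 4 < 2 ↔ e = 0 := by omega
        have e4 : x' % 4 < 2 ↔ ¬ e = 0 := by omega
        have := hC a b h3.1
        rw [e1, e2, e3, e4]
        tauto
      · rw [ta_ne h0]
    · have e1 : z / 4 = y / 4 := by omega
      have e2 : z % 4 < 2 ↔ y % 4 < 2 := by omega
      rw [e1, e2]

/-- the colouring -/
def Cl (G : ℕ → ℕ → Prop) (a : ℕ) : Prop :=
  ∃ m ≤ a, Linked (ta G) (4 * m) (4 * a) ∧
    ∀ m' < m, ¬ Linked (ta G) (4 * m') (4 * a) ∧ ¬ Linked (ta G) (4 * m') (4 * a + 2)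

theorem Cl_iff {a m : ℕ}
    (hm : Linked (ta G) (4 * m) (4 * a) ∨ Linked (ta G) (4 * m) (4 * a + 2))
    (hmin : ∀ m' < m, ¬ Linked (ta G) (4 * m') (4 * a) ∧ ¬ Linked (ta G) (4 * m') (4 * a + 2)) :
    Cl G a ↔ Linked (ta G) (4 * m) (4 * a) := by
  constructor
  · rintro ⟨k, hk, h1, h2⟩
    have : k = m := by
      rcases lt_trichotomy k m with h | h | h
      · exact absurd h1 (hmin k h).1
      · exact h
      · rcases hm with h3 | h3
        · exact absurd h3 (h2 m h).1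
        · exact absurd h3 (h2 m h).2
    rwa [this] at h1
  · intro h
    refine ⟨m, ?_, h, hmin⟩
    by_contra hlt
    push Not at hlt
    exact (hmin a hlt).1 Relation.ReflTransGen.refl

theorem Cl_proper (hs : ∀ a b, G a b → G b a)
    (hd : ∀ a b c d, G a b → G a c → G a d → b = c ∨ b = d ∨ c = d) (hB : Bipartite G) :
    Proper G (Cl G) := by
  classical
  obtain ⟨C, hC⟩ := hB
  intro a b hab
  have l1 : Linked (ta G) (4 * a) (4 * b + 2) := link_edge hs hd (e := 0) (by omega) hab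
  have l2 : Linked (ta G) (4 * a + 2) (4 * b) := link_edge hs hd (e := 1) (by omega) hab
  have l1' := l1.symm (ta_ta hd)
  have l2' := l2.symm (ta_ta hd)
  have hex : ∃ m, Linked (ta G) (4 * m) (4 * a) ∨ Linked (ta G) (4 * m) (4 * a + 2) :=
    ⟨a, Or.inl Relation.ReflTransGen.refl⟩
  have hm := Nat.find_spec hex
  have hmin : ∀ m' < Nat.find hex, ¬ Linked (ta G) (4 * m') (4 * a) ∧
      ¬ Linked (ta G) (4 * m') (4 * a + 2) := fun m' h => not_or.1 (Nat.find_min hex h)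
  set m := Nat.find hex
  have t1 : ∀ x, Linked (ta G) x (4 * a) ↔ Linked (ta G) x (4 * b + 2) := fun x =>
    ⟨fun h => h.trans l1, fun h => h.trans l1'⟩
  have t2 : ∀ x, Linked (ta G) x (4 * a + 2) ↔ Linked (ta G) x (4 * b) := fun x =>
    ⟨fun h => h.trans l2, fun h => h.trans l2'⟩
  have hbm : Linked (ta G) (4 * m) (4 * b) ∨ Linked (ta G) (4 * m) (4 * b + 2) := by
    rcases hm with h | h
    · exact Or.inr ((t1 _).1 h)
    · exact Or.inl ((t2 _).1 h)
  have hbmin : ∀ m' < m, ¬ Linked (ta G) (4 * m') (4 * b) ∧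
      ¬ Linked (ta G) (4 * m') (4 * b + 2) := fun m' h =>
    ⟨fun h' => (hmin m' h).2 ((t2 _).2 h'), fun h' => (hmin m' h).1 ((t1 _).2 h')⟩
  rw [Cl_iff hm hmin, Cl_iff hbm hbmin, t1]
  constructor
  · intro h h'
    have h2 : Linked (ta G) (4 * b) (4 * b + 2) := (h'.symm (ta_ta hd)).trans h
    have h3 := link_colour hd hC h2
    have e1 : 4 * b / 4 = b := by omega
    have e2 : (4 * b + 2) / 4 = b := by omega
    have e3 : 4 * b % 4 < 2 := by omega
    have e4 : ¬ (4 * b + 2) % 4 < 2 := by omega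
    rw [e1, e2] at h3
    tauto
  · intro h
    exact hbm.resolve_left h

end

/-! ### `Δ₀` definability -/

section

variable {K : ℕ} {E : (Fin (K + 1) → ℕ) → ℕ → ℕ → Prop}

theorem bd_E (hE : GraphFamily K E) {ι : Type} {A B : (ι → ℕ) → ℕ}
    {P : Fin (K + 1) → (ι → ℕ) → ℕ} (hA : PF A) (hB : PF B) (hP : ∀ i, PF (P i)) :
    Bd (fun v => E (fun i => P i v) (A v) (B v)) := by
  refine ((Bd.of_delta0 hE.delta0).subst (f := fun i v => (Matrix.vecCons (A v)
    (Matrix.vecCons (B v) (fun i => P i v)) : Fin (K + 3) → ℕ) i)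
    (PF.cons hA (PF.cons hB hP))).congr fun v => Iff.rfl

theorem bd_sl (hE : GraphFamily K E) {ι : Type} {A B I : (ι → ℕ) → ℕ}
    {P : Fin (K + 1) → (ι → ℕ) → ℕ} (hA : PF A) (hB : PF B) (hI : PF I) (hP : ∀ i, PF (P i)) :
    Bd (fun v => sl (E (fun i => P i v)) (A v) (B v) (I v)) := by
  have s : ∀ {f : (ι → ℕ) → ℕ}, PF f → PF (fun w : Option ι → ℕ => f (fun i => w (some i))) :=
    fun hf => hf.comp fun i => PF.proj (some i)
  have h1 : Bd (fun v : ι → ℕ => ∃ c < B v, E (fun i => P i v) (A v) c) :=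
    Bd.ex_lt (P := fun v c => E (fun i => P i v) (A v) c) hB
      (bd_E hE (P := fun i w => P i (fun i => w (some i))) (s hA) (PF.proj none)
        fun i => s (hP i))
  refine (Bd.and (bd_E hE hA hB hP) (Bd.or (Bd.and (Bd.eqf hI (PF.const 0)) (Bd.not h1))
    (Bd.and (Bd.eqf hI (PF.const 1)) h1))).congr fun v => ?_
  unfold sl
  push Not
  exact Iff.rfl

theorem bd_Tr (hE : GraphFamily K E) {ι : Type} {X Y : (ι → ℕ) → ℕ}
    {P : Fin (K + 1) → (ι → ℕ) → ℕ} (hX : PF X) (hY : PF Y) (hP : ∀ i, PF (P i)) :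
    Bd (fun v => Tr (E (fun i => P i v)) (X v) (Y v)) := by
  have s : ∀ {κ : Type} {f : (κ → ℕ) → ℕ}, PF f →
      PF (fun w : Option κ → ℕ => f (fun i => w (some i))) :=
    fun hf => hf.comp fun i => PF.proj (some i)
  unfold Tr
  refine Bd.ex_le hX (Bd.ex_lt (PF.const 2) (Bd.ex_lt (PF.const 2)
    (Bd.ex_le (s (s (s hY))) (Bd.ex_lt (PF.const 2) (Bd.and ?_ (Bd.and ?_ (Bd.and ?_ ?_)))))))
  · exact Bd.eqf (s (s (s (s (s hX))))) ((((PF.const 4).mul (PF.proj _)).add
      ((PF.const 2).mul (PF.proj _))).add (PF.proj _))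
  · exact Bd.eqf ((s (s (s (s (s hY))))).add ((PF.const 2).mul (PF.proj _)))
      ((((PF.const 4).mul (PF.proj _)).add (PF.const 2)).add (PF.proj _))
  · exact bd_sl hE (PF.proj _) (PF.proj _) (PF.proj _) fun i => s (s (s (s (s (hP i)))))
  · exact bd_sl hE (PF.proj _) (PF.proj _) (PF.proj _) fun i => s (s (s (s (s (hP i)))))

open Classical in
/-- the family of involutions -/
noncomputable def TA (E : (Fin (K + 1) → ℕ) → ℕ → ℕ → Prop) (q : Fin (K + 1 + 1) → ℕ) (x : ℕ) : ℕ :=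
  if 4 * q 1 ≤ q 0 then ta (E (fun i => q i.succ)) x else x

theorem TA_inv (hE : GraphFamily K E) : InvFamily (K + 1) (TA E) := by
  refine ⟨fun p x => ?_, fun p x hx => ?_, ?_⟩
  · unfold TA
    by_cases h0 : 4 * p 1 ≤ p 0
    · rw [if_pos h0, if_pos h0, ta_ta (hE.deg _)]
    · rw [if_neg h0, if_neg h0]
  · unfold TA
    by_cases h0 : 4 * p 1 ≤ p 0
    · rw [if_pos h0]
      refine ta_ne ?_
      rintro ⟨y, hy⟩
      have := hy.lt (M := p 1) fun a b h => hE.lt _ a b h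
      omega
    · rw [if_neg h0]
  · rw [Bd.delta0_iff]
    have hb : Bd (fun v : Fin (K + 1 + 3) → ℕ => 4 * v 3 ≤ v 2) :=
      Bd.lef ((PF.const 4).mul (PF.proj _)) (PF.proj _)
    have h1 : Bd (fun v : Fin (K + 1 + 3) → ℕ =>
        Tr (E (fun i => v i.succ.succ.succ)) (v 0) (v 1)) :=
      bd_Tr hE (P := fun i v => v i.succ.succ.succ) (PF.proj 0) (PF.proj 1) fun i => PF.proj _
    have h2 : Bd (fun v : Fin (K + 1 + 3) → ℕ => ∀ x'' < 4 * v 3,
        ¬ Tr (E (fun i => v i.succ.succ.succ)) (v 0) x'') :=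
      Bd.all_lt (P := fun v x'' => ¬ Tr (E (fun i => v i.succ.succ.succ)) (v 0) x'')
        ((PF.const 4).mul (PF.proj _)) (Bd.not (bd_Tr hE
          (P := fun i (w : Option (Fin (K + 1 + 3)) → ℕ) => w (some i.succ.succ.succ))
          (PF.proj (some 0)) (PF.proj none) fun i => PF.proj _))
    refine (Bd.or (Bd.and hb (Bd.or h1 (Bd.and (Bd.eqf (PF.proj 1) (PF.proj 0)) h2)))
      (Bd.and (Bd.not hb) (Bd.eqf (PF.proj 0) (PF.proj 1)))).congr fun v => ?_
    have hg := ta_graph (G := E (fun i => v i.succ.succ.succ)) (hE.deg _) (M := v 3)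
      (fun a b h => hE.lt _ a b h) (v 0) (v 1)
    unfold TA
    by_cases h0 : 4 * v 3 ≤ v 2
    · rw [if_pos (by exact h0)]
      refine hg.trans ?_
      constructor
      · intro h
        exact Or.inl ⟨h0, h⟩
      · rintro (h | h)
        · exact h.2
        · exact absurd h0 h.1
    · rw [if_neg (by exact h0)]
      constructor
      · intro h
        exact Or.inr ⟨h0, h⟩
      · rintro (h | h)
        · exact absurd h.1 h0
        · exact h.2

end

theorem t_COL : S_COL := by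
  intro hlink K E hE
  have hL := Bd.of_delta0 (hlink (K + 1) (TA E) (TA_inv hE))
  have bl : ∀ {ι : Type} {X Y : (ι → ℕ) → ℕ} {P : Fin (K + 1) → (ι → ℕ) → ℕ}, PF X → PF Y →
      (∀ i, PF (P i)) → Bd (fun v => Linked (ta (E (fun i => P i v))) (X v) (Y v)) := by
    intro ι X Y P hX hY hP
    refine (hL.subst (f := fun i v => (Matrix.vecCons (X v) (Matrix.vecCons (Y v)
      (Matrix.vecCons (4 * P 0 v) (fun i => P i v))) : Fin (K + 1 + 3) → ℕ) i)
      (PF.cons hX (PF.cons hY (PF.cons ((PF.const 4).mul (hP 0)) hP)))).congr fun v => ?_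
    have e : (TA E (Matrix.vecCons (4 * P 0 v) (fun i => P i v) : Fin (K + 1 + 1) → ℕ)) =
        ta (E (fun i => P i v)) := by
      funext x
      unfold TA
      rw [if_pos (by exact le_rfl)]
      rfl
    show _ ↔ Linked (TA E (Matrix.vecCons (4 * P 0 v) (fun i => P i v) : Fin (K + 1 + 1) → ℕ))
      (X v) (Y v)
    rw [e]
  refine ⟨fun p a => Cl (E p) a, ?_, fun p hB => Cl_proper (hE.symm p) (hE.deg p) hB⟩
  rw [Bd.delta0_iff]
  unfold Cl
  refine Bd.ex_le (PF.proj 0) (Bd.and ?_ (Bd.all_lt (PF.proj none) (Bd.and (Bd.not ?_)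
    (Bd.not ?_))))
  · exact bl (P := fun i (w : Option (Fin (K + 2)) → ℕ) => w (some i.succ))
      ((PF.const 4).mul (PF.proj none)) ((PF.const 4).mul (PF.proj (some 0))) fun i => PF.proj _
  · exact bl (P := fun i (w : Option (Option (Fin (K + 2))) → ℕ) => w (some (some i.succ)))
      ((PF.const 4).mul (PF.proj none)) ((PF.const 4).mul (PF.proj (some (some 0))))
      fun i => PF.proj _
  · exact bl (P := fun i (w : Option (Option (Fin (K + 2))) → ℕ) => w (some (some i.succ)))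
      ((PF.const 4).mul (PF.proj none))
      (((PF.const 4).mul (PF.proj (some (some 0)))).add (PF.const 2)) fun i => PF.proj _

end Pool.Agent.J4H63.TC
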